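import Mathlib

/-!
Definitions for interpolation by bounded analytic functions on the unit disc.
-/

namespace Pool.Agent.MP_e1108f_an

open Metric Filter Topology
open scoped ComplexConjugate

/-- `f` (restricted to the open unit disc) is a bounded analytic function, i.e. lies in `H^∞`. -/
def IsHInfty (f : ℂ → ℂ) : Prop :=
  DifferentiableOn ℂ f (ball 0 1) ∧ ∃ M : ℝ, ∀ z ∈ ball (0 : ℂ) 1, ‖f z‖ ≤ M

/-- The sup norm of `f` over the open unit disc. -/
noncomputable def supNorm (f : ℂ → ℂ) : ℝ := ⨆ z : ball (0 : ℂ) 1, ‖f z‖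

/-- The pseudo-hyperbolic distance `|z - w| / |1 - conj w z|`. -/
noncomputable def rho (z w : ℂ) : ℝ := ‖(z - w) / (1 - conj w * z)‖

/-- A Blaschke sequence in the open unit disc. -/
def IsBlaschkeSeq (z : ℕ → ℂ) : Prop :=
  (∀ n, ‖z n‖ < 1) ∧ Summable fun n => 1 - ‖z n‖

/-- Weak separation: the pseudo-hyperbolic distances of distinct terms are bounded below. -/
def IsWeaklySeparated (z : ℕ → ℂ) : Prop :=
  ∃ δ : ℝ, 0 < δ ∧ ∀ m n, m ≠ n → δ ≤ rho (z m) (z n)

/-- The normalized Blaschke factor `(|a|/a) (a - z)/(1 - conj a z)` (for `a ≠ 0`). -/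
noncomputable def blaschkeFactor (a z : ℂ) : ℂ :=
  ((‖a‖ : ℂ) / a) * ((a - z) / (1 - conj a * z))

/-- `B` is (on the open unit disc) a Blaschke product
`c z^k ∏_j (|a_j|/a_j) (a_j - z)/(1 - conj (a_j) z)` with `|c| = 1`, `k ≥ 0` and `(a_j)` a finite or
countably infinite family of nonzero points of the disc with `∑ (1 - |a_j|) < ∞`. -/
def IsBlaschkeProduct (B : ℂ → ℂ) : Prop :=
  ∃ (c : ℂ) (k : ℕ) (ι : Type) (_ : Countable ι) (a : ι → ℂ),
    ‖c‖ = 1 ∧ (∀ j, a j ≠ 0 ∧ ‖a j‖ < 1) ∧ (Summable fun j => 1 - ‖a j‖) ∧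
    ∀ z ∈ ball (0 : ℂ) 1, B z = c * z ^ k * ∏' j, blaschkeFactor (a j) z

/-- `g` is a minimal-norm interpolant of `f` on the sequence `z`: it is in `H^∞`, agrees with `f`
at every `z n`, and its sup norm is least among all such functions. -/
def IsMinNormInterpolant (z : ℕ → ℂ) (f g : ℂ → ℂ) : Prop :=
  IsHInfty g ∧ (∀ n, g (z n) = f (z n)) ∧
    ∀ h : ℂ → ℂ, IsHInfty h → (∀ n, h (z n) = f (z n)) → supNorm g ≤ supNorm h

end Pool.Agent.MP_e1108f_an
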