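import Mathlib
import Pool.Agent.MP_e1108f_an.Defs

/-!
Schwarz lemma for finite Blaschke products.
-/

namespace Pool.Agent.MP_e1108f_an

open Metric Filter Topology
open scoped ComplexConjugate

lemma one_sub_conj_mul_ne_zero {a z : ℂ} (ha : ‖a‖ < 1) (hz : ‖z‖ < 1) :
    1 - conj a * z ≠ 0 := by
  intro h
  have h1 : conj a * z = 1 := by linear_combination -h
  have h2 : ‖conj a * z‖ = 1 := by rw [h1]; simp
  rw [norm_mul, RCLike.norm_conj] at h2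
  nlinarith [norm_nonneg a, norm_nonneg z]

lemma one_sub_conj_mul_ne_zero' {a z : ℂ} (ha : ‖a‖ < 1) (hz : ‖z‖ ≤ 1) :
    1 - conj a * z ≠ 0 := by
  intro h
  have h1 : conj a * z = 1 := by linear_combination -h
  have h2 : ‖conj a * z‖ = 1 := by rw [h1]; simp
  rw [norm_mul, RCLike.norm_conj] at h2
  nlinarith [norm_nonneg a, norm_nonneg z]

/-- the basic identity -/
lemma normSq_mobius (a z : ℂ) :
    ‖1 - conj a * z‖ ^ 2 - ‖a - z‖ ^ 2 = (1 - ‖a‖ ^ 2) * (1 - ‖z‖ ^ 2) := by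
  have e : ∀ w : ℂ, ‖w‖ ^ 2 = w.re ^ 2 + w.im ^ 2 := by
    intro w
    rw [← Complex.normSq_eq_norm_sq, Complex.normSq_apply]; ring
  rw [e, e, e, e]
  simp
  ring

lemma norm_mobius_le_one {a z : ℂ} (ha : ‖a‖ < 1) (hz : ‖z‖ < 1) :
    ‖(a - z) / (1 - conj a * z)‖ ≤ 1 := by
  have h0 := one_sub_conj_mul_ne_zero ha hz
  rw [norm_div, div_le_one (norm_pos_iff.mpr h0)]
  have h := normSq_mobius a z
  have h1 : 0 ≤ (1 - ‖a‖ ^ 2) * (1 - ‖z‖ ^ 2) := by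
    apply mul_nonneg <;> nlinarith [norm_nonneg a, norm_nonneg z]
  exact pow_le_pow_left_iff_of_sq _ _ h1 h
where
  pow_le_pow_left_iff_of_sq (x y : ℂ) (h1 : 0 ≤ (1 - ‖a‖ ^ 2) * (1 - ‖z‖ ^ 2))
      (h : ‖x‖ ^ 2 - ‖y‖ ^ 2 = (1 - ‖a‖ ^ 2) * (1 - ‖z‖ ^ 2)) : ‖y‖ ≤ ‖x‖ := by
    have : ‖y‖ ^ 2 ≤ ‖x‖ ^ 2 := by linarith
    exact (sq_le_sq₀ (norm_nonneg _) (norm_nonneg _)).mp this

/-- lower bound for a Blaschke factor on the circle of radius `r` -/
lemma norm_mobius_lower {a z : ℂ} {r : ℝ} (hr : ‖a‖ < r) (hr1 : r < 1) (hz : ‖z‖ = r) :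
    (r - ‖a‖) / (1 - ‖a‖ * r) ≤ ‖(a - z) / (1 - conj a * z)‖ := by
  have ha0 := norm_nonneg a
  have ha : ‖a‖ < 1 := hr.trans hr1
  have hz1 : ‖z‖ < 1 := hz ▸ hr1
  have h0 := one_sub_conj_mul_ne_zero ha hz1
  have h0' : 0 < ‖1 - conj a * z‖ := norm_pos_iff.mpr h0
  have hd : 0 < 1 - ‖a‖ * r := by nlinarith
  rw [norm_div, div_le_div_iff₀ hd h0']
  have hid := normSq_mobius a z
  rw [hz] at hid
  have hnn : 0 ≤ (r - ‖a‖) := by linarith
  have hub : ‖a - z‖ ≥ r - ‖a‖ := by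
    have := norm_sub_norm_le z a
    rw [norm_sub_rev] at this; linarith [hz ▸ this]
  have hlb : 1 - ‖a‖ * r ≤ ‖1 - conj a * z‖ := by
    have := norm_sub_norm_le (1:ℂ) (conj a * z)
    rw [norm_mul, RCLike.norm_conj, hz, norm_one] at this
    exact this
  -- square both sides
  have key : ((r - ‖a‖) * ‖1 - conj a * z‖) ^ 2 ≤ (‖a - z‖ * (1 - ‖a‖ * r)) ^ 2 := by
    have e1 : ‖a - z‖ ^ 2 = ‖1 - conj a * z‖ ^ 2 - (1 - ‖a‖ ^ 2) * (1 - r ^ 2) := by linarith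
    rw [mul_pow, mul_pow, e1]
    have e2 : (1 - ‖a‖ * r) ^ 2 - (r - ‖a‖) ^ 2 = (1 - ‖a‖ ^ 2) * (1 - r ^ 2) := by ring
    have e3 : (1 - ‖a‖ * r) ^ 2 ≤ ‖1 - conj a * z‖ ^ 2 := by gcongr
    have e4 : 0 ≤ (1 - ‖a‖ ^ 2) * (1 - r ^ 2) := by
      apply mul_nonneg <;> nlinarith
    nlinarith [mul_le_mul_of_nonneg_left e3 e4]
  exact (sq_le_sq₀ (by positivity) (by positivity)).mp key

/-- Boundary maximum principle for the disc: if the modulus of a function, analytic in the open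
disc, is asymptotically at most `1` near the boundary then it is at most `1`. -/
lemma norm_le_one_of_boundary {H : ℂ → ℂ} (hH : DifferentiableOn ℂ H (ball 0 1))
    (hb : ∀ ε > 0, ∃ r < 1, ∀ s, r < s → s < 1 → ∀ z, ‖z‖ = s → ‖H z‖ ≤ 1 + ε) :
    ∀ z ∈ ball (0 : ℂ) 1, ‖H z‖ ≤ 1 := by
  intro z hz
  apply le_of_forall_pos_le_add
  intro ε hε
  obtain ⟨r, hr, hr'⟩ := hb ε hε
  have hz1 : ‖z‖ < 1 := by simpa using hz
  obtain ⟨s, hs1, hs2⟩ := exists_between (max_lt (max_lt hr hz1) zero_lt_one)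
  have hrs : r < s := lt_of_le_of_lt ((le_max_left _ _).trans (le_max_left _ _)) hs1
  have hzs : ‖z‖ < s := lt_of_le_of_lt ((le_max_right _ _).trans (le_max_left _ _)) hs1
  have hs0 : 0 < s := lt_of_le_of_lt (le_max_right _ _) hs1
  have hsub : closedBall (0:ℂ) s ⊆ ball 0 1 := closedBall_subset_ball hs2
  have hd : DiffContOnCl ℂ H (ball 0 s) := by
    apply DifferentiableOn.diffContOnCl
    rw [closure_ball _ hs0.ne']
    exact hH.mono hsub
  refine Complex.norm_le_of_forall_mem_frontier_norm_le (isBounded_ball (x := (0:ℂ)) (r := s)) hd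
    (C := 1 + ε) ?_ (subset_closure (by simpa using hzs))
  intro w hw
  rw [frontier_ball _ hs0.ne'] at hw
  exact hr' s hrs hs2 w (by simpa using hw)

/-- Dividing out one zero. -/
lemma divide_one {F : ℂ → ℂ} (hF : DifferentiableOn ℂ F (ball 0 1))
    (hb : ∀ z ∈ ball (0 : ℂ) 1, ‖F z‖ ≤ 1) {a : ℂ} (ha : ‖a‖ < 1) (hFa : F a = 0) :
    ∃ H : ℂ → ℂ, DifferentiableOn ℂ H (ball 0 1) ∧ (∀ z ∈ ball (0 : ℂ) 1, ‖H z‖ ≤ 1) ∧
      ∀ z ∈ ball (0 : ℂ) 1, F z = (a - z) / (1 - conj a * z) * H z := by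
  have ha0 := norm_nonneg a
  have ham : ball (0:ℂ) 1 ∈ 𝓝 a := isOpen_ball.mem_nhds (by simpa using ha)
  set H : ℂ → ℂ := fun z => -(1 - conj a * z) * dslope F a z with hHdef
  have hHd : DifferentiableOn ℂ H (ball 0 1) := by
    apply DifferentiableOn.mul
    · fun_prop
    · exact (Complex.differentiableOn_dslope ham).mpr hF
  have hfac : ∀ z ∈ ball (0 : ℂ) 1, F z = (a - z) / (1 - conj a * z) * H z := by
    intro z hz
    have hz1 : ‖z‖ < 1 := by simpa using hz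
    have h0 := one_sub_conj_mul_ne_zero ha hz1
    have h1 := sub_smul_dslope F a z
    rw [hFa, sub_zero, smul_eq_mul] at h1
    rw [hHdef]
    rw [div_mul_eq_mul_div, eq_div_iff h0]
    linear_combination (-(1 - conj a * z)) * h1
  refine ⟨H, hHd, ?_, hfac⟩
  apply norm_le_one_of_boundary hHd
  intro ε hε
  -- (1 - a s)/(s - a) → 1 as s → 1
  have hlim : Tendsto (fun s : ℝ => (1 - ‖a‖ * s) / (s - ‖a‖)) (𝓝 1)
      (𝓝 ((1 - ‖a‖ * 1) / (1 - ‖a‖))) := by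
    apply Tendsto.div
    · exact tendsto_const_nhds.sub (tendsto_id.const_mul _)
    · exact tendsto_id.sub tendsto_const_nhds
    · linarith
  have h1 : (1 - ‖a‖ * 1) / (1 - ‖a‖) = 1 := by
    rw [mul_one]; exact div_self (by linarith)
  rw [h1] at hlim
  have hev : ∀ᶠ s : ℝ in 𝓝 1, (1 - ‖a‖ * s) / (s - ‖a‖) < 1 + ε :=
    hlim.eventually_lt_const (by linarith)
  rw [Metric.eventually_nhds_iff] at hev
  obtain ⟨δ, hδ, hev⟩ := hev
  refine ⟨max (1 - δ) ‖a‖, max_lt (by linarith) ha, ?_⟩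
  intro s hs hs1 z hz
  have hs' : 1 - δ < s := lt_of_le_of_lt (le_max_left _ _) hs
  have has : ‖a‖ < s := lt_of_le_of_lt (le_max_right _ _) hs
  have hd := hev (y := s) (by rw [Real.dist_eq, abs_lt]; constructor <;> linarith)
  have hzb : z ∈ ball (0:ℂ) 1 := by simpa [hz] using hs1
  have hlow := norm_mobius_lower has hs1 hz
  have hpos : 0 < (s - ‖a‖) / (1 - ‖a‖ * s) := by
    apply div_pos (by linarith); nlinarith
  have hF1 := hb z hzb
  rw [hfac z hzb, norm_mul] at hF1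
  have hm : 0 < ‖(a - z) / (1 - conj a * z)‖ := lt_of_lt_of_le hpos hlow
  have hle : ‖H z‖ ≤ 1 / ‖(a - z) / (1 - conj a * z)‖ := by
    rw [le_div_iff₀ hm]; linarith [mul_comm ‖H z‖ ‖(a - z) / (1 - conj a * z)‖]
  refine hle.trans ((one_div_le_one_div_of_le hpos hlow).trans ?_)
  rw [one_div_div]
  exact hd.le

/-- Dividing out finitely many distinct zeros. -/
lemma divide_finset {ι : Type*} [DecidableEq ι] (a : ι → ℂ) (hinj : Function.Injective a)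
    (ha : ∀ i, ‖a i‖ < 1) (s : Finset ι) :
    ∀ {F : ℂ → ℂ}, DifferentiableOn ℂ F (ball 0 1) → (∀ z ∈ ball (0 : ℂ) 1, ‖F z‖ ≤ 1) →
      (∀ i ∈ s, F (a i) = 0) →
    ∃ H : ℂ → ℂ, DifferentiableOn ℂ H (ball 0 1) ∧ (∀ z ∈ ball (0 : ℂ) 1, ‖H z‖ ≤ 1) ∧
      ∀ z ∈ ball (0 : ℂ) 1, F z = (∏ i ∈ s, (a i - z) / (1 - conj (a i) * z)) * H z := by
  induction s using Finset.induction_on with
  | empty =>
    intro F hF hb _
    exact ⟨F, hF, hb, fun z _ => by simp⟩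
  | insert j s hj ih =>
    intro F hF hb h0
    obtain ⟨H, hH, hHb, hfac⟩ := ih hF hb (fun i hi => h0 i (Finset.mem_insert_of_mem hi))
    have hja : a j ∈ ball (0:ℂ) 1 := by simpa using ha j
    have hHj : H (a j) = 0 := by
      have h1 := hfac (a j) hja
      rw [h0 j (Finset.mem_insert_self _ _)] at h1
      have h2 : (∏ i ∈ s, (a i - a j) / (1 - conj (a i) * a j)) ≠ 0 := by
        rw [Finset.prod_ne_zero_iff]
        intro i hi
        apply div_ne_zero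
        · rw [sub_ne_zero]
          intro h; exact hj (hinj h ▸ hi)
        · exact one_sub_conj_mul_ne_zero (ha i) (ha j)
      rcases mul_eq_zero.mp h1.symm with h | h
      · exact absurd h h2
      · exact h
    obtain ⟨K, hK, hKb, hfac2⟩ := divide_one hH hHb (ha j) hHj
    refine ⟨K, hK, hKb, fun z hz => ?_⟩
    rw [hfac z hz, hfac2 z hz, Finset.prod_insert hj]
    ring

lemma norm_le_finset_prod {ι : Type*} [DecidableEq ι] (a : ι → ℂ) (hinj : Function.Injective a)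
    (ha : ∀ i, ‖a i‖ < 1) (s : Finset ι)
    {F : ℂ → ℂ} (hF : DifferentiableOn ℂ F (ball 0 1)) (hb : ∀ z ∈ ball (0 : ℂ) 1, ‖F z‖ ≤ 1)
    (h0 : ∀ i ∈ s, F (a i) = 0) {z : ℂ} (hz : z ∈ ball (0 : ℂ) 1) :
    ‖F z‖ ≤ ∏ i ∈ s, ‖(a i - z) / (1 - conj (a i) * z)‖ := by
  obtain ⟨H, _, hHb, hfac⟩ := divide_finset a hinj ha s hF hb h0
  rw [hfac z hz, norm_mul, norm_prod]
  exact mul_le_of_le_one_right (Finset.prod_nonneg fun i _ => norm_nonneg _) (hHb z hz)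

end Pool.Agent.MP_e1108f_an
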