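import Mathlib
import Pool.Agent.MP_e1108f_an.Schwarz

/-!
Infinite Blaschke products.
-/

namespace Pool.Agent.MP_e1108f_an

open Metric Filter Topology
open scoped ComplexConjugate

variable {ι : Type*}

/-- Admissible families of zeros. -/
structure Adm (a : ι → ℂ) : Prop where
  ne : ∀ j, a j ≠ 0
  lt : ∀ j, ‖a j‖ < 1
  sum : Summable fun j => 1 - ‖a j‖

/-- The (infinite) Blaschke product. -/
noncomputable def BP (a : ι → ℂ) (z : ℂ) : ℂ := ∏' j, blaschkeFactor (a j) z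

lemma norm_blaschkeFactor {a z : ℂ} (ha : a ≠ 0) :
    ‖blaschkeFactor a z‖ = ‖(a - z) / (1 - conj a * z)‖ := by
  unfold blaschkeFactor
  rw [norm_mul, norm_div]
  have : ‖(‖a‖ : ℂ)‖ = ‖a‖ := by simp
  rw [this, div_self (norm_ne_zero_iff.mpr ha), one_mul]

lemma norm_blaschkeFactor_le_one {a z : ℂ} (ha : a ≠ 0) (ha1 : ‖a‖ < 1) (hz : ‖z‖ < 1) :
    ‖blaschkeFactor a z‖ ≤ 1 := by
  rw [norm_blaschkeFactor ha]
  exact norm_mobius_le_one ha1 hz

lemma blaschkeFactor_sub_one {a z : ℂ} (ha : a ≠ 0) (ha1 : ‖a‖ < 1) (hz : ‖z‖ < 1) :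
    ‖blaschkeFactor a z - 1‖ ≤ (1 - ‖a‖) * (2 / (1 - ‖z‖)) := by
  have h0 := one_sub_conj_mul_ne_zero ha1 hz
  have hconj : (conj a) * a = (‖a‖ : ℂ) ^ 2 := by
    rw [← Complex.normSq_eq_conj_mul_self, Complex.normSq_eq_norm_sq]; push_cast; ring
  have e : blaschkeFactor a z - 1 =
      -((1 - ‖a‖ : ℝ) : ℂ) * ((a + ‖a‖ * z) / (a * (1 - conj a * z))) := by
    unfold blaschkeFactor
    rw [div_mul_div_comm, div_sub_one (mul_ne_zero ha h0), mul_div_assoc']
    congr 1
    push_cast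
    linear_combination z * hconj
  rw [e, norm_mul, norm_neg, norm_div, norm_mul]
  have h1 : ‖((1 - ‖a‖ : ℝ) : ℂ)‖ = 1 - ‖a‖ := by
    rw [Complex.norm_real, Real.norm_eq_abs, abs_of_nonneg (by linarith)]
  rw [h1]
  have hapos : 0 < ‖a‖ := norm_pos_iff.mpr ha
  have h2 : 1 - ‖z‖ ≤ ‖1 - conj a * z‖ := by
    have := norm_sub_norm_le (1:ℂ) (conj a * z)
    rw [norm_mul, RCLike.norm_conj, norm_one] at this
    nlinarith [norm_nonneg z]
  have h3 : ‖a + ‖a‖ * z‖ ≤ 2 * ‖a‖ := by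
    calc _ ≤ ‖a‖ + ‖(‖a‖ : ℂ) * z‖ := norm_add_le _ _
      _ = ‖a‖ + ‖a‖ * ‖z‖ := by rw [norm_mul]; simp
      _ ≤ _ := by nlinarith
  apply mul_le_mul_of_nonneg_left _ (by linarith)
  rw [div_le_div_iff₀ (mul_pos hapos (norm_pos_iff.mpr h0)) (by linarith)]
  calc ‖a + ‖a‖ * z‖ * (1 - ‖z‖) ≤ (2 * ‖a‖) * ‖1 - conj a * z‖ := by
        apply mul_le_mul h3 h2 (by linarith) (by positivity)
    _ = _ := by ring

lemma differentiableOn_blaschkeFactor {a : ℂ} (ha1 : ‖a‖ < 1) :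
    DifferentiableOn ℂ (blaschkeFactor a) (ball 0 1) := by
  unfold blaschkeFactor
  apply DifferentiableOn.mul (differentiableOn_const _)
  apply DifferentiableOn.div (by fun_prop) (by fun_prop)
  intro z hz
  exact one_sub_conj_mul_ne_zero ha1 (by simpa using hz)

lemma Adm.comp {κ : Type*} {a : ι → ℂ} (h : Adm a) {e : κ → ι} (he : Function.Injective e) :
    Adm (a ∘ e) :=
  ⟨fun j => h.ne _, fun j => h.lt _, h.sum.comp_injective he⟩

lemma Adm.summable {a : ι → ℂ} (h : Adm a) {z : ℂ} (hz : ‖z‖ < 1) :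
    Summable fun j => ‖blaschkeFactor (a j) z - 1‖ :=
  Summable.of_nonneg_of_le (fun _ => norm_nonneg _)
    (fun j => blaschkeFactor_sub_one (h.ne j) (h.lt j) hz) (h.sum.mul_right _)

lemma Adm.multipliable {a : ι → ℂ} (h : Adm a) {z : ℂ} (hz : ‖z‖ < 1) :
    Multipliable fun j => blaschkeFactor (a j) z := by
  have := multipliable_one_add_of_summable (h.summable hz)
  simpa using this

lemma Adm.hasProd {a : ι → ℂ} (h : Adm a) {z : ℂ} (hz : ‖z‖ < 1) :
    HasProd (fun j => blaschkeFactor (a j) z) (BP a z) :=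
  (h.multipliable hz).hasProd

lemma Adm.hasProdLocallyUniformlyOn {a : ι → ℂ} (h : Adm a) :
    HasProdLocallyUniformlyOn (fun j => blaschkeFactor (a j)) (BP a) (ball 0 1) := by
  have e1 : (fun (j : ι) => blaschkeFactor (a j)) =
      (fun j z => 1 + (blaschkeFactor (a j) z - 1)) := by
    funext j z; ring
  have e2 : BP a = (fun z => ∏' j, (1 + (blaschkeFactor (a j) z - 1))) := by
    funext z; unfold BP; congr 1; funext j; ring
  rw [e1, e2]
  apply hasProdLocallyUniformlyOn_of_forall_compact Metric.isOpen_ball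
  intro K hK hcK
  rcases K.eq_empty_or_nonempty with hN | hN
  · simpa [hasProdUniformlyOn_iff_tendstoUniformlyOn, hN] using tendstoUniformlyOn_empty
  · obtain ⟨q₀, hq₀, _, HB⟩ := hcK.exists_sSup_image_eq_and_ge hN
      (show ContinuousOn (fun q : ℂ ↦ ‖q‖) K by fun_prop)
    have hq1 : ‖q₀‖ < 1 := by simpa using hK hq₀
    refine Summable.hasProdUniformlyOn_one_add (u := fun j => (1 - ‖a j‖) * (2 / (1 - ‖q₀‖)))
      hcK (h.sum.mul_right _) (.of_forall fun j x hx ↦ ?_) (fun j ↦ ?_)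
    · have hx1 : ‖x‖ < 1 := by simpa using hK hx
      refine (blaschkeFactor_sub_one (h.ne j) (h.lt j) hx1).trans ?_
      have hj := h.lt j
      apply mul_le_mul_of_nonneg_left _ (by linarith)
      apply div_le_div_of_nonneg_left (by norm_num) (by linarith)
      linarith [HB x hx]
    · exact (((differentiableOn_blaschkeFactor (h.lt j)).mono hK).continuousOn).sub
        continuousOn_const

lemma Adm.differentiableOn {a : ι → ℂ} (h : Adm a) : DifferentiableOn ℂ (BP a) (ball 0 1) :=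
  h.hasProdLocallyUniformlyOn.differentiableOn
    (.of_forall fun s ↦ by
      simpa [Finset.prod_fn] using
        DifferentiableOn.finsetProd (fun j _ ↦ differentiableOn_blaschkeFactor (h.lt j)))
    Metric.isOpen_ball

lemma Adm.norm_le_prod {a : ι → ℂ} (h : Adm a) {z : ℂ} (hz : ‖z‖ < 1) (s : Finset ι) :
    ‖BP a z‖ ≤ ∏ j ∈ s, ‖(a j - z) / (1 - conj (a j) * z)‖ := by
  classical
  have ht : Tendsto (fun t : Finset ι => ∏ j ∈ t, ‖blaschkeFactor (a j) z‖) atTop
      (𝓝 ‖BP a z‖) := by simpa [HasProd] using (h.hasProd hz).norm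
  refine le_of_tendsto ht ?_
  filter_upwards [eventually_ge_atTop s] with t hst
  calc ∏ j ∈ t, ‖blaschkeFactor (a j) z‖
      = (∏ j ∈ t \ s, ‖blaschkeFactor (a j) z‖) * ∏ j ∈ s, ‖blaschkeFactor (a j) z‖ :=
        (Finset.prod_sdiff hst).symm
    _ ≤ 1 * ∏ j ∈ s, ‖blaschkeFactor (a j) z‖ := by
        apply mul_le_mul_of_nonneg_right _ (Finset.prod_nonneg fun i _ => norm_nonneg _)
        apply Finset.prod_le_one
        · intro i _; exact norm_nonneg _
        · intro i _; exact norm_blaschkeFactor_le_one (h.ne i) (h.lt i) hz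
    _ = _ := by
        rw [one_mul]
        exact Finset.prod_congr rfl fun j _ => norm_blaschkeFactor (h.ne j)

lemma Adm.norm_le_one {a : ι → ℂ} (h : Adm a) {z : ℂ} (hz : ‖z‖ < 1) :
    ‖BP a z‖ ≤ 1 := by
  simpa using h.norm_le_prod hz ∅

lemma Adm.ne_zero {a : ι → ℂ} (h : Adm a) {z : ℂ} (hz : ‖z‖ < 1) (hne : ∀ j, z ≠ a j) :
    BP a z ≠ 0 := by
  have e2 : BP a z = ∏' j, (1 + (blaschkeFactor (a j) z - 1)) := by
    unfold BP; congr 1; funext j; ring
  rw [e2]
  apply tprod_one_add_ne_zero_of_summable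
  · intro j
    have h0 := one_sub_conj_mul_ne_zero (h.lt j) hz
    rw [add_sub_cancel]
    unfold blaschkeFactor
    apply mul_ne_zero
    · apply div_ne_zero _ (h.ne j)
      exact_mod_cast norm_ne_zero_iff.mpr (h.ne j)
    · apply div_ne_zero _ h0
      rw [sub_ne_zero]; exact (hne j).symm
  · exact h.summable hz

lemma Adm.eq_zero {a : ι → ℂ} (h : Adm a) (j : ι) : BP a (a j) = 0 := by
  have := h.norm_le_prod (h.lt j) {j}
  simpa using this

/-- An element of the unit ball of `H^∞` vanishing at the zeros is dominated by the product. -/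
lemma Adm.norm_le_of_vanish {a : ι → ℂ} (h : Adm a) (hinj : Function.Injective a) {F : ℂ → ℂ}
    (hF : DifferentiableOn ℂ F (ball 0 1)) (hb : ∀ z ∈ ball (0 : ℂ) 1, ‖F z‖ ≤ 1)
    (h0 : ∀ i, F (a i) = 0) {z : ℂ} (hz : z ∈ ball (0 : ℂ) 1) : ‖F z‖ ≤ ‖BP a z‖ := by
  classical
  have hz1 : ‖z‖ < 1 := by simpa using hz
  have ht : Tendsto (fun t : Finset ι => ∏ j ∈ t, ‖blaschkeFactor (a j) z‖) atTop
      (𝓝 ‖BP a z‖) := by simpa [HasProd] using (h.hasProd hz1).norm
  refine ge_of_tendsto ht (Eventually.of_forall fun t => ?_)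
  refine (norm_le_finset_prod a hinj h.lt t hF hb (fun i _ => h0 i) hz).trans (le_of_eq ?_)
  exact Finset.prod_congr rfl fun j _ => (norm_blaschkeFactor (h.ne j)).symm

/-- Splitting off finitely many factors. -/
lemma Adm.split [DecidableEq ι] {a : ι → ℂ} (h : Adm a) {z : ℂ} (hz : ‖z‖ < 1) (s : Finset ι) :
    BP a z = (∏ j ∈ s, blaschkeFactor (a j) z) *
      BP (fun j : {j // j ∉ s} => a j) z := by
  have h1 : HasProd ((fun j => blaschkeFactor (a j) z) ∘ (fun x : (s : Set ι) => (x : ι)))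
      (∏ j ∈ s, blaschkeFactor (a j) z) := s.hasProd _
  have h2 : HasProd ((fun j => blaschkeFactor (a j) z) ∘
      (fun x : ((s : Set ι)ᶜ : Set ι) => (x : ι)))
      (BP (fun j : {j // j ∉ s} => a j) z) := by
    have := (h.comp (e := fun j : {j // j ∉ s} => (j : ι)) Subtype.val_injective).hasProd hz
    exact this
  have h3 := h1.mul_compl h2
  exact (h.hasProd hz).unique h3

end Pool.Agent.MP_e1108f_an
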