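import Mathlib
import Pool.Agent.MP_e1108f_an.Blaschke

/-!
The level set `{S = 1/e}` of the atomic singular inner function `S(z) = exp(-(1+z)/(1-z))`.
-/

namespace Pool.Agent.MP_e1108f_an

open Metric Filter Topology
open scoped ComplexConjugate Real

/-- Cayley map from the right half plane to the disc. -/
noncomputable def cay (w : ℂ) : ℂ := (w - 1) / (w + 1)

/-- inverse Cayley map -/
noncomputable def cayInv (z : ℂ) : ℂ := (1 + z) / (1 - z)

lemma add_one_ne_zero_of_re {w : ℂ} (hw : 0 < w.re) : w + 1 ≠ 0 := by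
  intro h
  have := congrArg Complex.re h
  simp at this
  linarith

lemma cay_norm_lt {w : ℂ} (hw : 0 < w.re) : ‖cay w‖ < 1 := by
  unfold cay
  have h0 := add_one_ne_zero_of_re hw
  rw [norm_div, div_lt_one (norm_pos_iff.mpr h0)]
  have e : ∀ w : ℂ, ‖w‖ ^ 2 = w.re ^ 2 + w.im ^ 2 := by
    intro w
    rw [← Complex.normSq_eq_norm_sq, Complex.normSq_apply]; ring
  have : ‖w - 1‖ ^ 2 < ‖w + 1‖ ^ 2 := by
    rw [e, e]; simp; nlinarith
  exact (sq_lt_sq₀ (norm_nonneg _) (norm_nonneg _)).mp this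

lemma one_sub_norm_sq_cay {w : ℂ} (hw : 0 < w.re) :
    1 - ‖cay w‖ ^ 2 = 4 * w.re / ‖w + 1‖ ^ 2 := by
  unfold cay
  have h0 := add_one_ne_zero_of_re hw
  have h0' : ‖w + 1‖ ^ 2 ≠ 0 := pow_ne_zero _ (norm_ne_zero_iff.mpr h0)
  rw [norm_div, div_pow, eq_div_iff h0', sub_mul, div_mul_cancel₀ _ h0', one_mul]
  have e : ∀ w : ℂ, ‖w‖ ^ 2 = w.re ^ 2 + w.im ^ 2 := by
    intro w
    rw [← Complex.normSq_eq_norm_sq, Complex.normSq_apply]; ring
  rw [e, e]; simp; ring

lemma one_sub_norm_cay_le {w : ℂ} (hw : 0 < w.re) :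
    1 - ‖cay w‖ ≤ 4 * w.re / ‖w + 1‖ ^ 2 := by
  rw [← one_sub_norm_sq_cay hw]
  nlinarith [cay_norm_lt hw, norm_nonneg (cay w)]

lemma one_sub_ne_zero_of_norm {z : ℂ} (hz : ‖z‖ < 1) : 1 - z ≠ 0 := by
  intro h
  have : z = 1 := by linear_combination -h
  rw [this] at hz; simp at hz

lemma cay_cayInv {z : ℂ} (hz : ‖z‖ < 1) : cay (cayInv z) = z := by
  have h := one_sub_ne_zero_of_norm hz
  unfold cay cayInv
  have h2 : (1 + z) / (1 - z) + 1 = 2 / (1 - z) := by field_simp; ring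
  have h3 : (1 + z) / (1 - z) - 1 = 2 * z / (1 - z) := by field_simp; ring
  rw [h2, h3]
  field_simp

lemma cayInv_re_pos {z : ℂ} (hz : ‖z‖ < 1) : 0 < (cayInv z).re := by
  have h := one_sub_ne_zero_of_norm hz
  unfold cayInv
  rw [Complex.div_re]
  have hn : 0 < Complex.normSq (1 - z) := Complex.normSq_pos.mpr h
  have e : ‖z‖ ^ 2 = z.re ^ 2 + z.im ^ 2 := by
    rw [← Complex.normSq_eq_norm_sq, Complex.normSq_apply]; ring
  rw [← add_div]
  apply div_pos _ hn
  simp
  nlinarith [norm_nonneg z]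

lemma cayInv_cay {w : ℂ} (hw : 0 < w.re) : cayInv (cay w) = w := by
  have h0 := add_one_ne_zero_of_re hw
  unfold cayInv cay
  have h2 : 1 - (w - 1) / (w + 1) = 2 / (w + 1) := by field_simp; ring
  have h3 : 1 + (w - 1) / (w + 1) = 2 * w / (w + 1) := by field_simp; ring
  rw [h2, h3]
  field_simp

lemma add_conj_ne_zero {w l : ℂ} (hw : 0 < w.re) (hl : 0 < l.re) : w + conj l ≠ 0 := by
  intro h
  have := congrArg Complex.re h
  simp at this
  linarith

/-- pseudo-hyperbolic distance in half plane coordinates -/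
lemma norm_mobius_cay {w l : ℂ} (hw : 0 < w.re) (hl : 0 < l.re) :
    ‖(cay l - cay w) / (1 - conj (cay l) * cay w)‖ = ‖(w - l) / (w + conj l)‖ := by
  have h0 := add_one_ne_zero_of_re hw
  have h1 := add_one_ne_zero_of_re hl
  have h1' : conj l + 1 ≠ 0 := by
    have := add_one_ne_zero_of_re (w := conj l) (by simpa using hl)
    exact this
  have h2 := add_conj_ne_zero hw hl
  have e1 : cay l - cay w = 2 * (l - w) / ((l + 1) * (w + 1)) := by
    unfold cay; field_simp; ring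
  have e2 : 1 - conj (cay l) * cay w = 2 * (w + conj l) / ((conj l + 1) * (w + 1)) := by
    unfold cay
    rw [map_div₀, map_sub, map_add, map_one]
    field_simp; ring
  rw [e1, e2]
  simp only [norm_div, norm_mul]
  have e3 : ‖conj l + 1‖ = ‖l + 1‖ := by
    rw [← RCLike.norm_conj (l + 1)]; simp
  rw [e3, norm_sub_rev l w]
  have n1 : ‖l + 1‖ ≠ 0 := norm_ne_zero_iff.mpr h1
  have n2 : ‖w + 1‖ ≠ 0 := norm_ne_zero_iff.mpr h0
  have n3 : ‖w + conj l‖ ≠ 0 := norm_ne_zero_iff.mpr h2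
  have n4 : ‖(2:ℂ)‖ ≠ 0 := by simp
  field_simp

/-- The points of the level set, in half-plane coordinates. -/
noncomputable def lamZ (n : ℤ) : ℂ := 1 + 2 * π * n * Complex.I

lemma lamZ_re (n : ℤ) : (lamZ n).re = 1 := by
  simp [lamZ]

lemma exp_neg_lamZ (n : ℤ) : Complex.exp (-lamZ n) = Complex.exp (-1) := by
  unfold lamZ
  rw [Complex.exp_eq_exp_iff_exists_int]
  exact ⟨-n, by push_cast; ring⟩

lemma prod_Icc_succ (f : ℤ → ℝ) (N : ℕ) :
    ∏ n ∈ Finset.Icc (-((N + 1 : ℕ) : ℤ)) ((N + 1 : ℕ) : ℤ), f n =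
      (∏ n ∈ Finset.Icc (-(N : ℤ)) (N : ℤ), f n) * (f (N + 1) * f (-(N + 1))) := by
  have e : Finset.Icc (-((N + 1 : ℕ) : ℤ)) ((N + 1 : ℕ) : ℤ) =
      insert ((N : ℤ) + 1) (insert (-((N : ℤ) + 1)) (Finset.Icc (-(N : ℤ)) (N : ℤ))) := by
    ext x
    simp only [Finset.mem_Icc, Finset.mem_insert]
    push_cast
    omega
  rw [e, Finset.prod_insert, Finset.prod_insert]
  · ring
  · simp only [Finset.mem_Icc]; omega
  · simp only [Finset.mem_Icc, Finset.mem_insert]; omega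

lemma level_prod {w : ℂ} (hw : 0 < w.re) (N : ℕ) :
    ∏ n ∈ Finset.Icc (-(N : ℤ)) (N : ℤ), ‖(w - lamZ n) / (w + conj (lamZ n))‖ =
      ‖(π * ((w - 1) / (2 * π * Complex.I)) * ∏ j ∈ Finset.range N,
          (1 - ((w - 1) / (2 * π * Complex.I)) ^ 2 / ((j : ℂ) + 1) ^ 2)) /
        (π * ((w + 1) / (2 * π * Complex.I)) * ∏ j ∈ Finset.range N,
          (1 - ((w + 1) / (2 * π * Complex.I)) ^ 2 / ((j : ℂ) + 1) ^ 2))‖ := by
  have hpi : (π : ℂ) ≠ 0 := by exact_mod_cast Real.pi_ne_zero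
  have hI := Complex.I_ne_zero
  have hw1 := add_one_ne_zero_of_re hw
  induction N with
  | zero =>
    have e : Finset.Icc (-((0 : ℕ) : ℤ)) ((0 : ℕ) : ℤ) = {0} := by simp
    rw [e, Finset.prod_singleton]
    simp only [Finset.range_zero, Finset.prod_empty, mul_one]
    congr 1
    have : lamZ 0 = 1 := by simp [lamZ]
    rw [this, map_one]
    field_simp
  | succ N ih =>
    rw [prod_Icc_succ, ih, ← norm_mul, ← norm_mul, Finset.prod_range_succ, Finset.prod_range_succ]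
    congr 1
    have hN : ((N : ℂ) + 1) ≠ 0 := by exact_mod_cast Nat.succ_ne_zero N
    have c1 : conj (lamZ ((N : ℤ) + 1)) = 1 - 2 * π * (N + 1) * Complex.I := by
      simp [lamZ, map_ofNat]; ring
    have c2 : conj (lamZ (-((N : ℤ) + 1))) = 1 + 2 * π * (N + 1) * Complex.I := by
      simp [lamZ, map_ofNat]; ring
    have hsq : Complex.I ^ 2 = -1 := Complex.I_sq
    have e1 : (1 - ((w - 1) / (2 * π * Complex.I)) ^ 2 / ((N : ℂ) + 1) ^ 2) =
        ((w - lamZ ((N : ℤ) + 1)) * (w - lamZ (-((N : ℤ) + 1)))) /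
          (4 * π ^ 2 * (N + 1) ^ 2) := by
      rw [div_pow, mul_pow, mul_pow, hsq]
      unfold lamZ
      push_cast
      field_simp
      linear_combination (16 * (π:ℂ) ^ 2 * (N + 1) ^ 2) * hsq
    have e2 : (1 - ((w + 1) / (2 * π * Complex.I)) ^ 2 / ((N : ℂ) + 1) ^ 2) =
        ((w + conj (lamZ ((N : ℤ) + 1))) * (w + conj (lamZ (-((N : ℤ) + 1))))) /
          (4 * π ^ 2 * (N + 1) ^ 2) := by
      rw [div_pow, mul_pow, mul_pow, hsq, c1, c2]
      field_simp
      linear_combination (16 * (π:ℂ) ^ 2 * (N + 1) ^ 2) * hsq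
    rw [e1, e2]
    have hD : (4 * (π:ℂ) ^ 2 * (N + 1) ^ 2) ≠ 0 :=
      mul_ne_zero (mul_ne_zero (by norm_num) (pow_ne_zero _ hpi)) (pow_ne_zero _ hN)
    set A := (w - lamZ ((N : ℤ) + 1))
    set B := (w - lamZ (-((N : ℤ) + 1)))
    set C := (w + conj (lamZ ((N : ℤ) + 1)))
    set D := (w + conj (lamZ (-((N : ℤ) + 1))))
    set P := π * ((w - 1) / (2 * π * Complex.I))
    set Q := π * ((w + 1) / (2 * π * Complex.I))
    set R := ∏ j ∈ Finset.range N, (1 - ((w - 1) / (2 * π * Complex.I)) ^ 2 / ((j : ℂ) + 1) ^ 2)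
    set T := ∏ j ∈ Finset.range N, (1 - ((w + 1) / (2 * π * Complex.I)) ^ 2 / ((j : ℂ) + 1) ^ 2)
    have : P * (R * (A * B / (4 * π ^ 2 * (N + 1) ^ 2))) /
        (Q * (T * (C * D / (4 * π ^ 2 * (N + 1) ^ 2)))) =
        (P * R / (Q * T)) * ((A * B / (4 * π ^ 2 * (N + 1) ^ 2)) /
          (C * D / (4 * π ^ 2 * (N + 1) ^ 2))) := by
      rw [div_mul_div_comm]; ring
    rw [this, div_div_div_cancel_right₀ hD, div_mul_div_comm A C B D]

lemma sin_pi_mul_div (u : ℂ) :
    Complex.sin (π * (u / (2 * π * Complex.I))) =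
      (Complex.exp (-(u / 2)) - Complex.exp (u / 2)) * Complex.I / 2 := by
  have hpi : (π : ℂ) ≠ 0 := by exact_mod_cast Real.pi_ne_zero
  have hI := Complex.I_ne_zero
  unfold Complex.sin
  have e : π * (u / (2 * π * Complex.I)) * Complex.I = u / 2 := by field_simp
  rw [e]
  have e' : -(π * (u / (2 * π * Complex.I))) * Complex.I = -(u / 2) := by
    rw [neg_mul, e]
  rw [e']

lemma one_sub_exp_ne_zero {w : ℂ} (hw : 0 < w.re) :
    1 - Complex.exp (-1) * Complex.exp (-w) ≠ 0 := by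
  intro h
  have h1 : Complex.exp (-1) * Complex.exp (-w) = 1 := by linear_combination -h
  rw [← Complex.exp_add] at h1
  have h2 := congrArg norm h1
  rw [Complex.norm_exp, norm_one, Real.exp_eq_one_iff] at h2
  simp at h2
  linarith

lemma level_tendsto {w : ℂ} (hw : 0 < w.re) :
    Tendsto (fun N : ℕ => ∏ n ∈ Finset.Icc (-(N : ℤ)) (N : ℤ),
      ‖(w - lamZ n) / (w + conj (lamZ n))‖) atTop
      (𝓝 ‖(Complex.exp (-w) - Complex.exp (-1)) /
        (1 - Complex.exp (-1) * Complex.exp (-w))‖) := by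
  have h1 := Complex.tendsto_euler_sin_prod ((w - 1) / (2 * π * Complex.I))
  have h2 := Complex.tendsto_euler_sin_prod ((w + 1) / (2 * π * Complex.I))
  have hne : Complex.exp (-((w + 1) / 2)) ≠ 0 := Complex.exp_ne_zero _
  have hone := one_sub_exp_ne_zero hw
  have k1 : Complex.exp (-w) - Complex.exp (-1) = Complex.exp (-((w + 1) / 2)) *
      (Complex.exp (-((w - 1) / 2)) - Complex.exp ((w - 1) / 2)) := by
    rw [mul_sub, ← Complex.exp_add, ← Complex.exp_add]
    congr 1 <;> congr 1 <;> ring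
  have k2 : 1 - Complex.exp (-1) * Complex.exp (-w) = -(Complex.exp (-((w + 1) / 2)) *
      (Complex.exp (-((w + 1) / 2)) - Complex.exp ((w + 1) / 2))) := by
    rw [mul_sub, ← Complex.exp_add, ← Complex.exp_add, ← Complex.exp_add]
    have a1 : -((w + 1) / 2) + (w + 1) / 2 = 0 := by ring
    have a2 : -((w + 1) / 2) + -((w + 1) / 2) = -1 + -w := by ring
    rw [a1, a2, Complex.exp_zero]; ring
  have hs : Complex.sin (π * ((w + 1) / (2 * π * Complex.I))) ≠ 0 := by
    rw [sin_pi_mul_div]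
    intro h
    apply hone
    rw [k2]
    have : (Complex.exp (-((w + 1) / 2)) - Complex.exp ((w + 1) / 2)) = 0 := by
      have hI := Complex.I_ne_zero
      rcases div_eq_zero_iff.mp h with h | h
      · rcases mul_eq_zero.mp h with h | h
        · exact h
        · exact absurd h hI
      · norm_num at h
    rw [this]; ring
  have h3 := (h1.div h2 hs).norm
  refine (h3.congr (fun N => ?_)).trans (le_of_eq ?_)
  · rw [level_prod hw N]; rfl
  · congr 1
    have hI := Complex.I_ne_zero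
    rw [sin_pi_mul_div, sin_pi_mul_div, k1, k2, div_neg, norm_neg, mul_div_mul_left _ _ hne,
      div_div_div_cancel_right₀ (by norm_num), mul_div_mul_right _ _ hI]

end Pool.Agent.MP_e1108f_an
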