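import Mathlib
import Pool.Agent.MP_e1108f_an.Level

/-!
Uniqueness of the interpolants.
-/

namespace Pool.Agent.MP_e1108f_an

open Metric Filter Topology
open scoped ComplexConjugate Real

/-- The atomic singular inner function. -/
noncomputable def SS (z : ℂ) : ℂ := Complex.exp (-cayInv z)

lemma SS_norm_le {z : ℂ} (hz : ‖z‖ < 1) : ‖SS z‖ ≤ 1 := by
  unfold SS
  rw [Complex.norm_exp]
  have := cayInv_re_pos hz
  simp only [Complex.neg_re, Real.exp_le_one_iff]
  linarith

lemma SS_ne_zero (z : ℂ) : SS z ≠ 0 := Complex.exp_ne_zero _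

lemma SS_diff : DifferentiableOn ℂ SS (ball 0 1) := by
  unfold SS cayInv
  apply DifferentiableOn.cexp
  apply DifferentiableOn.neg
  apply DifferentiableOn.div (by fun_prop) (by fun_prop)
  intro z hz
  exact one_sub_ne_zero_of_norm (by simpa using hz)

lemma exp_neg_one_norm : ‖Complex.exp (-1)‖ < 1 := by
  rw [Complex.norm_exp, Real.exp_lt_one_iff]; simp

lemma exp_neg_one_conj : conj (Complex.exp (-1)) = Complex.exp (-1) := by
  rw [← Complex.exp_conj]; simp

/-- Schwarz lemma for the level set. -/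
lemma level_schwarz {F : ℂ → ℂ} (hF : DifferentiableOn ℂ F (ball 0 1))
    (hb : ∀ z ∈ ball (0 : ℂ) 1, ‖F z‖ ≤ 1) (h0 : ∀ n : ℤ, F (cay (lamZ n)) = 0)
    {z : ℂ} (hz : z ∈ ball (0 : ℂ) 1) :
    ‖F z‖ ≤ ‖(SS z - Complex.exp (-1)) / (1 - Complex.exp (-1) * SS z)‖ := by
  have hz1 : ‖z‖ < 1 := by simpa using hz
  have hw := cayInv_re_pos hz1
  have ht := level_tendsto hw
  refine ge_of_tendsto ht (Eventually.of_forall fun N => ?_)
  have hinj : Function.Injective (fun n : ℤ => cay (lamZ n)) := by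
    intro m n h
    have h1 : cayInv (cay (lamZ m)) = cayInv (cay (lamZ n)) := congrArg cayInv h
    rw [cayInv_cay (by rw [lamZ_re]; norm_num), cayInv_cay (by rw [lamZ_re]; norm_num)] at h1
    unfold lamZ at h1
    have hpi : (π : ℂ) ≠ 0 := by exact_mod_cast Real.pi_ne_zero
    have hI := Complex.I_ne_zero
    have h2 : (m : ℂ) = n := by
      have h3 : 2 * π * (m:ℂ) * Complex.I = 2 * π * (n:ℂ) * Complex.I := by
        linear_combination h1
      have h4 : (2 * (π:ℂ) * Complex.I) ≠ 0 := mul_ne_zero (mul_ne_zero (by norm_num) hpi) hI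
      apply mul_left_cancel₀ h4
      linear_combination h3
    exact_mod_cast h2
  have := norm_le_finset_prod (fun n : ℤ => cay (lamZ n)) hinj
    (fun n => cay_norm_lt (by rw [lamZ_re]; norm_num)) (Finset.Icc (-(N : ℤ)) (N : ℤ)) hF hb
    (fun i _ => h0 i) hz
  refine this.trans (le_of_eq ?_)
  apply Finset.prod_congr rfl
  intro n _
  conv_lhs => rw [← cay_cayInv hz1]
  exact norm_mobius_cay hw (by rw [lamZ_re]; norm_num)

/-- Rigidity: an element of the unit ball of `H^∞` which equals `S` on the level set and at one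
further point is `S`. -/
lemma S_unique {G : ℂ → ℂ} (hG : DifferentiableOn ℂ G (ball 0 1))
    (hb : ∀ z ∈ ball (0 : ℂ) 1, ‖G z‖ ≤ 1) (h0 : ∀ n : ℤ, G (cay (lamZ n)) = Complex.exp (-1))
    {z₀ : ℂ} (hz₀ : z₀ ∈ ball (0 : ℂ) 1) (hS : SS z₀ ≠ Complex.exp (-1)) (hG0 : G z₀ = SS z₀) :
    Set.EqOn G SS (ball 0 1) := by
  set r := Complex.exp (-1) with hr
  have hr1 : ‖r‖ < 1 := exp_neg_one_norm
  have hden : ∀ {x : ℂ}, ‖x‖ ≤ 1 → 1 - r * x ≠ 0 := by
    intro x hx
    have := one_sub_conj_mul_ne_zero' hr1 hx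
    rwa [exp_neg_one_conj] at this
  have hSd := SS_diff
  have hSb : ∀ z ∈ ball (0 : ℂ) 1, ‖SS z‖ ≤ 1 := fun z hz => SS_norm_le (by simpa using hz)
  -- the transformed function
  set H : ℂ → ℂ := fun z => (G z - r) / (1 - r * G z) with hH
  set b : ℂ → ℂ := fun z => (SS z - r) / (1 - r * SS z) with hbdef
  have hHd : DifferentiableOn ℂ H (ball 0 1) := by
    apply DifferentiableOn.div (hG.sub_const _)
    · exact (hG.const_mul r).const_sub 1
    · intro z hz; exact hden (hb z hz)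
  have hbd : DifferentiableOn ℂ b (ball 0 1) := by
    apply DifferentiableOn.div (hSd.sub_const _)
    · exact (hSd.const_mul r).const_sub 1
    · intro z hz; exact hden (hSb z hz)
  have hHb : ∀ z ∈ ball (0 : ℂ) 1, ‖H z‖ ≤ 1 := by
    intro z hz
    have h1 := normSq_mobius r (G z)
    rw [exp_neg_one_conj] at h1
    have h2 := hb z hz
    have h3 : 0 ≤ (1 - ‖r‖ ^ 2) * (1 - ‖G z‖ ^ 2) := by
      apply mul_nonneg <;> nlinarith [norm_nonneg r, norm_nonneg (G z)]
    rw [hH]
    show ‖(G z - r) / (1 - r * G z)‖ ≤ 1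
    rw [norm_div, div_le_one (norm_pos_iff.mpr (hden h2)), norm_sub_rev]
    exact (sq_le_sq₀ (norm_nonneg _) (norm_nonneg _)).mp (by linarith)
  have hH0 : ∀ n : ℤ, H (cay (lamZ n)) = 0 := by
    intro n; simp only [hH]; rw [h0 n]; simp
  have hle : ∀ z ∈ ball (0 : ℂ) 1, ‖H z‖ ≤ ‖b z‖ := fun z hz => level_schwarz hHd hHb hH0 hz
  have hHz₀ : H z₀ = b z₀ := by simp only [hH, hbdef]; rw [hG0]
  have hbz₀ : b z₀ ≠ 0 := by
    simp only [hbdef]
    apply div_ne_zero (sub_ne_zero.mpr hS) (hden (hSb z₀ hz₀))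
  have hnhds : ball (0:ℂ) 1 ∈ 𝓝 z₀ := isOpen_ball.mem_nhds hz₀
  have hbcont : ContinuousAt b z₀ := (hbd.differentiableAt hnhds).continuousAt
  have hbne : ∀ᶠ z in 𝓝 z₀, b z ≠ 0 := hbcont.eventually_ne hbz₀
  set q : ℂ → ℂ := fun z => H z / b z with hq
  have hqd : ∀ᶠ z in 𝓝 z₀, DifferentiableAt ℂ q z := by
    filter_upwards [hbne, isOpen_ball.mem_nhds hz₀] with z hz hzb
    have hzn : ball (0:ℂ) 1 ∈ 𝓝 z := isOpen_ball.mem_nhds hzb
    exact (hHd.differentiableAt hzn).div (hbd.differentiableAt hzn) hz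
  have hq0 : q z₀ = 1 := by simp only [hq]; rw [hHz₀]; exact div_self hbz₀
  have hmax : IsLocalMax (norm ∘ q) z₀ := by
    filter_upwards [hbne, isOpen_ball.mem_nhds hz₀] with z hz hzb
    simp only [Function.comp_apply]
    rw [hq0, norm_one]
    simp only [hq]
    rw [norm_div, div_le_one (norm_pos_iff.mpr hz)]
    exact hle z hzb
  have hconst := Complex.eventually_eq_of_isLocalMax_norm hqd hmax
  have hGS : G =ᶠ[𝓝 z₀] SS := by
    filter_upwards [hconst, hbne, isOpen_ball.mem_nhds hz₀] with z h1 h2 hzb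
    rw [hq0] at h1
    simp only [hq] at h1
    rw [div_eq_one_iff_eq h2] at h1
    simp only [hH, hbdef] at h1
    have d1 := hden (hb z hzb)
    have d2 := hden (hSb z hzb)
    rw [div_eq_div_iff d1 d2] at h1
    have h3 : (G z - SS z) * (1 - r * r) = 0 := by linear_combination h1
    have h4 : 1 - r * r ≠ 0 := hden hr1.le
    rcases mul_eq_zero.mp h3 with h | h
    · exact sub_eq_zero.mp h
    · exact absurd h h4
  have hGa : AnalyticOnNhd ℂ G (ball 0 1) := hG.analyticOnNhd isOpen_ball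
  have hSa : AnalyticOnNhd ℂ SS (ball 0 1) := hSd.analyticOnNhd isOpen_ball
  exact hGa.eqOn_of_preconnected_of_eventuallyEq hSa (convex_ball (0:ℂ) 1).isPreconnected hz₀ hGS

/-- Division of analytic functions. -/
lemma exists_quotient {F B : ℂ → ℂ} (hF : DifferentiableOn ℂ F (ball 0 1))
    (hB : DifferentiableOn ℂ B (ball 0 1)) (hle : ∀ z ∈ ball (0 : ℂ) 1, ‖F z‖ ≤ ‖B z‖)
    {z₀ : ℂ} (hz₀ : z₀ ∈ ball (0 : ℂ) 1) (hne : B z₀ ≠ 0) :
    ∃ Q : ℂ → ℂ, DifferentiableOn ℂ Q (ball 0 1) ∧ (∀ z ∈ ball (0 : ℂ) 1, ‖Q z‖ ≤ 1) ∧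
      ∀ z ∈ ball (0 : ℂ) 1, F z = B z * Q z := by
  classical
  have hBa : AnalyticOnNhd ℂ B (ball 0 1) := hB.analyticOnNhd isOpen_ball
  -- zeros are isolated
  have hiso : ∀ z ∈ ball (0 : ℂ) 1, ∀ᶠ w in 𝓝[≠] z, B w ≠ 0 := by
    intro z hz
    rcases (hBa z hz).eventually_eq_zero_or_eventually_ne_zero with h | h
    · exfalso
      apply hne
      have h0 : AnalyticOnNhd ℂ (fun _ : ℂ => (0:ℂ)) (ball 0 1) := fun _ _ => analyticAt_const
      exact hBa.eqOn_of_preconnected_of_eventuallyEq h0 (convex_ball (0:ℂ) 1).isPreconnected hz h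
        hz₀
    · exact h
  set q : ℂ → ℂ := fun z => F z / B z with hq
  set Q : ℂ → ℂ := fun z => if B z = 0 then limUnder (𝓝[≠] z) q else q z with hQ
  have hqle : ∀ z ∈ ball (0 : ℂ) 1, ‖q z‖ ≤ 1 := by
    intro z hz
    simp only [hq]
    rw [norm_div]
    exact div_le_one_of_le₀ (hle z hz) (norm_nonneg _)
  have hQd : ∀ z ∈ ball (0 : ℂ) 1, DifferentiableAt ℂ Q z := by
    intro z hz
    have h1 := hiso z hz
    rw [eventually_nhdsWithin_iff, Metric.eventually_nhds_iff] at h1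
    obtain ⟨ε, hε, h1⟩ := h1
    obtain ⟨ε', hε', h2⟩ := Metric.isOpen_ball.mem_nhds hz |> Metric.mem_nhds_iff.mp
    set U := ball z (min ε ε') with hU
    have hUn : U ∈ 𝓝 z := ball_mem_nhds z (lt_min hε hε')
    have hUB : ∀ w ∈ U, w ≠ z → B w ≠ 0 := by
      intro w hw hwz
      exact h1 (lt_of_lt_of_le hw (min_le_left _ _)) hwz
    have hUb : U ⊆ ball 0 1 := (ball_subset_ball (min_le_right _ _)).trans h2
    have hqU : DifferentiableOn ℂ q (U \ {z}) := by
      intro w hw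
      have hwb : ball (0:ℂ) 1 ∈ 𝓝 w := isOpen_ball.mem_nhds (hUb hw.1)
      exact ((hF.differentiableAt hwb).div (hB.differentiableAt hwb)
        (hUB w hw.1 hw.2)).differentiableWithinAt
    by_cases hBz : B z = 0
    · have hup := Complex.differentiableOn_update_limUnder_of_bddAbove hUn hqU (by
        refine ⟨1, ?_⟩
        rintro _ ⟨w, hw, rfl⟩
        exact hqle w (hUb hw.1))
      have heq : Set.EqOn Q (Function.update q z (limUnder (𝓝[≠] z) q)) U := by
        intro w hw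
        by_cases hwz : w = z
        · subst hwz; simp only [hQ]; simp [hBz]
        · simp only [hQ]; rw [if_neg (hUB w hw hwz), Function.update_of_ne hwz]
      exact (hup.congr heq).differentiableAt hUn
    · have heq : Q =ᶠ[𝓝 z] q := by
        filter_upwards [hUn] with w hw
        by_cases hwz : w = z
        · subst hwz; simp only [hQ]; rw [if_neg hBz]
        · simp only [hQ]; rw [if_neg (hUB w hw hwz)]
      have hzn : ball (0:ℂ) 1 ∈ 𝓝 z := isOpen_ball.mem_nhds hz
      have : DifferentiableAt ℂ q z :=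
        (hF.differentiableAt hzn).div (hB.differentiableAt hzn) hBz
      exact this.congr_of_eventuallyEq heq
  refine ⟨Q, fun z hz => (hQd z hz).differentiableWithinAt, ?_, ?_⟩
  · intro z hz
    have hc : ContinuousAt (fun w => ‖Q w‖) z := (hQd z hz).continuousAt.norm
    have ht : Tendsto (fun w => ‖Q w‖) (𝓝[≠] z) (𝓝 ‖Q z‖) := hc.tendsto.mono_left nhdsWithin_le_nhds
    refine le_of_tendsto ht ?_
    filter_upwards [hiso z hz, nhdsWithin_le_nhds (isOpen_ball.mem_nhds hz)] with w h1 h2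
    simp only [hQ]; rw [if_neg h1]
    exact hqle w h2
  · intro z hz
    by_cases hBz : B z = 0
    · have := hle z hz
      rw [hBz, norm_zero, norm_le_zero_iff] at this
      rw [hBz, this, zero_mul]
    · simp only [hQ]; rw [if_neg hBz]
      simp only [hq]; field_simp

end Pool.Agent.MP_e1108f_an
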