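import Mathlib
import Pool.Agent.MP_e1108f_an.Unique

/-!
The configuration of points.
-/

namespace Pool.Agent.MP_e1108f_an

open Metric Filter Topology
open scoped ComplexConjugate Real

/-- The points, in half-plane coordinates. -/
noncomputable def lam (p : ℕ × ℤ) : ℂ := (((1 / 2 : ℝ) ^ p.1 : ℝ) : ℂ) * lamZ p.2

lemma lamZ_im (n : ℤ) : (lamZ n).im = 2 * π * n := by
  simp [lamZ]

lemma lam_re (p : ℕ × ℤ) : (lam p).re = (1 / 2 : ℝ) ^ p.1 := by
  unfold lam
  rw [Complex.re_ofReal_mul, lamZ_re, mul_one]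

lemma lam_im (p : ℕ × ℤ) : (lam p).im = (1 / 2 : ℝ) ^ p.1 * (2 * π * p.2) := by
  unfold lam
  rw [Complex.im_ofReal_mul, lamZ_im]

lemma lam_re_pos (p : ℕ × ℤ) : 0 < (lam p).re := by
  rw [lam_re]; positivity

lemma norm_sq_eq (w : ℂ) : ‖w‖ ^ 2 = w.re ^ 2 + w.im ^ 2 := by
  rw [← Complex.normSq_eq_norm_sq, Complex.normSq_apply]; ring

/-- Separation in the half plane. -/
lemma lam_sep {p q : ℕ × ℤ} (h : p ≠ q) :
    ‖lam q + conj (lam p)‖ ≤ 3 * ‖lam q - lam p‖ := by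
  have key : ‖lam q + conj (lam p)‖ ^ 2 ≤ (3 * ‖lam q - lam p‖) ^ 2 := by
    rw [mul_pow, norm_sq_eq, norm_sq_eq]
    simp only [Complex.add_re, Complex.add_im, Complex.conj_re, Complex.conj_im, Complex.sub_re,
      Complex.sub_im]
    rw [lam_re, lam_re, lam_im, lam_im]
    obtain ⟨k, m⟩ := p
    obtain ⟨l, n⟩ := q
    simp only
    set x := (1 / 2 : ℝ) ^ k with hx
    set y := (1 / 2 : ℝ) ^ l with hy
    have hx0 : 0 < x := by positivity
    have hy0 : 0 < y := by positivity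
    rcases lt_trichotomy k l with hkl | hkl | hkl
    · -- y ≤ x / 2
      have h1 : y ≤ x / 2 := by
        rw [hy, hx]
        have : (1 / 2 : ℝ) ^ k / 2 = (1 / 2 : ℝ) ^ (k + 1) := by ring
        rw [this]
        exact pow_le_pow_of_le_one (by norm_num) (by norm_num) hkl
      nlinarith [sq_nonneg (y * (2 * π * n) - x * (2 * π * m))]
    · subst hkl
      have hmn : m ≠ n := by
        intro h'; apply h; rw [h']
      have h1 : (1 : ℝ) ≤ ((n : ℝ) - m) ^ 2 := by
        have : (1 : ℤ) ≤ (n - m) ^ 2 := by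
          have h3 : n - m ≠ 0 := sub_ne_zero.mpr hmn.symm
          have h4 : 0 < (n - m) ^ 2 := by positivity
          omega
        exact_mod_cast this
      have hpi : (3 : ℝ) < π := Real.pi_gt_three
      have hpi2 : (9 : ℝ) < π ^ 2 := by nlinarith
      have e : (y * (2 * π * n) - y * (2 * π * m)) ^ 2 = 4 * π ^ 2 * y ^ 2 * ((n:ℝ) - m) ^ 2 := by
        ring
      have hyy : x = y := by rw [hx, hy]
      rw [hyy]
      have h2 : y ^ 2 ≤ (y * (2 * π * n) - y * (2 * π * m)) ^ 2 := by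
        rw [e]
        have : 0 < y ^ 2 := by positivity
        have h3 : 1 ≤ 4 * π ^ 2 * ((n:ℝ) - m) ^ 2 := by nlinarith
        nlinarith
      have e2 : (y * (2 * π * n) + -(y * (2 * π * m))) = (y * (2 * π * n) - y * (2 * π * m)) := by
        ring
      rw [e2]
      nlinarith
    · -- x ≤ y / 2
      have h1 : x ≤ y / 2 := by
        rw [hy, hx]
        have : (1 / 2 : ℝ) ^ l / 2 = (1 / 2 : ℝ) ^ (l + 1) := by ring
        rw [this]
        exact pow_le_pow_of_le_one (by norm_num) (by norm_num) hkl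
      nlinarith [sq_nonneg (y * (2 * π * n) - x * (2 * π * m))]
  exact (sq_le_sq₀ (norm_nonneg _) (by positivity)).mp key

lemma lam_injective : Function.Injective lam := by
  intro p q h
  by_contra hne
  have h1 := lam_sep hne
  rw [h, sub_self, norm_zero, mul_zero, norm_le_zero_iff] at h1
  exact add_conj_ne_zero (lam_re_pos q) (lam_re_pos q) h1

lemma cay_injOn {w l : ℂ} (hw : 0 < w.re) (hl : 0 < l.re) (h : cay w = cay l) : w = l := by
  rw [← cayInv_cay hw, ← cayInv_cay hl, h]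

/-- the points in the disc -/
noncomputable def pt (p : ℕ × ℤ) : ℂ := cay (lam p)

lemma pt_injective : Function.Injective pt := fun p q h =>
  lam_injective (cay_injOn (lam_re_pos p) (lam_re_pos q) h)

lemma pt_lt (p : ℕ × ℤ) : ‖pt p‖ < 1 := cay_norm_lt (lam_re_pos p)

lemma pt_sep {p q : ℕ × ℤ} (h : p ≠ q) : 1 / 3 ≤ rho (pt p) (pt q) := by
  have h1 : rho (pt p) (pt q) = ‖(lam p - lam q) / (lam p + conj (lam q))‖ := by
    have := norm_mobius_cay (lam_re_pos p) (lam_re_pos q)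
    unfold rho pt
    rw [← this, norm_div, norm_div, norm_sub_rev]
  rw [h1, norm_div]
  have h2 := lam_sep h.symm
  have h3 : 0 < ‖lam p + conj (lam q)‖ :=
    norm_pos_iff.mpr (add_conj_ne_zero (lam_re_pos p) (lam_re_pos q))
  rw [div_le_div_iff₀ (by norm_num) h3]
  linarith

/-- index set of the zeros of `B₁` -/
def JJ : Set (ℕ × ℤ) := {p | 1 ≤ p.1 ∧ (16 : ℤ) ^ p.1 ≤ |p.2|}

/-- index set of all nodes -/
def TT : Set (ℕ × ℤ) := {p | p.1 = 0 ∨ p = (1, 0) ∨ p ∈ JJ}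

lemma TT_bound {p : ℕ × ℤ} (hp : p ∈ TT) (h0 : p.2 ≠ 0) : (16 : ℝ) ^ p.1 ≤ |(p.2 : ℝ)| := by
  rcases hp with h | h | h
  · rw [h, pow_zero]
    have : (1 : ℤ) ≤ |p.2| := Int.one_le_abs h0
    exact_mod_cast this
  · exfalso; apply h0; rw [h]
  · exact_mod_cast h.2

/-- comparison function for the summability, first factor -/
noncomputable def cmh (k : ℕ) : ℝ := (1 / 2 : ℝ) ^ k

/-- comparison function for the summability, second factor -/
noncomputable def cmg (m : ℤ) : ℝ := |(m : ℝ)| ^ (-(3 / 2 : ℝ)) + if m = 0 then (1:ℝ) else 0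

lemma cmg_summable : Summable cmg := by
  apply Summable.add
  · exact Real.summable_abs_int_rpow (by norm_num)
  · apply summable_of_ne_finset_zero (s := {0})
    intro b hb
    simp at hb
    simp [hb]

lemma cmh_summable : Summable cmh := summable_geometric_of_lt_one (by norm_num) (by norm_num)

lemma cmg_nonneg : 0 ≤ cmg := fun m => by
  show (0:ℝ) ≤ |(m : ℝ)| ^ (-(3 / 2 : ℝ)) + if m = 0 then (1:ℝ) else 0
  exact add_nonneg (Real.rpow_nonneg (abs_nonneg _) _) (by split_ifs <;> norm_num)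

lemma cmh_nonneg : 0 ≤ cmh := fun m => by
  show (0:ℝ) ≤ (1 / 2 : ℝ) ^ m
  positivity

/-- comparison function for the summability -/
noncomputable def cmpf (p : ℕ × ℤ) : ℝ := cmh p.1 * cmg p.2

lemma cmpf_summable : Summable cmpf :=
  Summable.mul_of_nonneg cmh_summable cmg_summable cmh_nonneg cmg_nonneg

lemma bound_cmp {p : ℕ × ℤ} (hp : p ∈ TT) : 1 - ‖pt p‖ ≤ 4 * cmpf p := by
  by_cases h0 : p.2 = 0
  · have h1 : 1 - ‖pt p‖ ≤ 1 := by linarith [norm_nonneg (pt p)]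
    have h2 : p.1 ≤ 1 := by
      rcases hp with h | h | h
      · omega
      · rw [h]
      · exfalso
        have := h.2
        rw [h0, abs_zero] at this
        have h3 : (0 : ℤ) < 16 ^ p.1 := by positivity
        omega
    refine h1.trans ?_
    unfold cmpf cmh cmg
    rw [if_pos h0, h0]
    have h3 : (1 / 2 : ℝ) ^ 1 ≤ (1 / 2 : ℝ) ^ p.1 :=
      pow_le_pow_of_le_one (by norm_num) (by norm_num) h2
    have h4 : |((0 : ℤ) : ℝ)| ^ (-(3 / 2 : ℝ)) = 0 := by
      rw [Int.cast_zero, abs_zero, Real.zero_rpow (by norm_num)]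
    rw [h4]
    linarith
  · have hb := TT_bound hp h0
    have hm : 0 < |(p.2 : ℝ)| := abs_pos.mpr (by exact_mod_cast h0)
    have hm2 : (0 : ℝ) < (p.2 : ℝ) ^ 2 := by rw [← sq_abs]; positivity
    set x := (1 / 2 : ℝ) ^ p.1 with hx
    have hx0 : 0 < x := by positivity
    have hpi : (3 : ℝ) < π := Real.pi_gt_three
    have hpi2 : (9 : ℝ) < π ^ 2 := by nlinarith
    have h1 : 1 - ‖pt p‖ ≤ 4 * x / ‖lam p + 1‖ ^ 2 := by
      have := one_sub_norm_cay_le (lam_re_pos p)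
      rwa [lam_re] at this
    have h2 : x ^ 2 * (p.2 : ℝ) ^ 2 ≤ ‖lam p + 1‖ ^ 2 := by
      rw [norm_sq_eq]
      simp only [Complex.add_re, Complex.add_im, Complex.one_re, Complex.one_im, add_zero]
      rw [lam_re, lam_im, ← hx]
      have : (x * (2 * π * p.2)) ^ 2 = 4 * π ^ 2 * (x ^ 2 * (p.2 : ℝ) ^ 2) := by ring
      rw [this]
      have h3 : 0 < x ^ 2 * (p.2 : ℝ) ^ 2 := by positivity
      nlinarith [sq_nonneg (x + 1)]
    have h3 : 1 - ‖pt p‖ ≤ 4 * (1 / (x * (p.2 : ℝ) ^ 2)) := by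
      refine h1.trans ?_
      have : 4 * (1 / (x * (p.2 : ℝ) ^ 2)) = 4 * x / (x ^ 2 * (p.2 : ℝ) ^ 2) := by
        field_simp
      rw [this]
      exact div_le_div_of_nonneg_left (by positivity) (by positivity) h2
    refine h3.trans ?_
    apply mul_le_mul_of_nonneg_left _ (by norm_num)
    unfold cmpf cmh cmg
    rw [if_neg h0, add_zero, ← hx]
    -- 1 / (x m²) ≤ x |m|^(-3/2)
    have e1 : (p.2 : ℝ) ^ 2 = |(p.2 : ℝ)| ^ (3 / 2 : ℝ) * |(p.2 : ℝ)| ^ (1 / 2 : ℝ) := by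
      rw [← Real.rpow_add hm, ← sq_abs]
      norm_num
    have e2 : |(p.2 : ℝ)| ^ (-(3 / 2 : ℝ)) = 1 / |(p.2 : ℝ)| ^ (3 / 2 : ℝ) := by
      rw [Real.rpow_neg hm.le, one_div]
    have e3 : (4 : ℝ) ^ p.1 ≤ |(p.2 : ℝ)| ^ (1 / 2 : ℝ) := by
      have : (4 : ℝ) ^ p.1 = ((16 : ℝ) ^ p.1) ^ (1 / 2 : ℝ) := by
        rw [← Real.sqrt_eq_rpow]
        have : (16 : ℝ) ^ p.1 = ((4 : ℝ) ^ p.1) ^ 2 := by
          rw [← pow_mul, mul_comm, pow_mul]; norm_num
        rw [this, Real.sqrt_sq (by positivity)]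
      rw [this]
      exact Real.rpow_le_rpow (by positivity) hb (by norm_num)
    have e4 : x * x * (4 : ℝ) ^ p.1 = 1 := by
      rw [hx, ← mul_pow, ← mul_pow]; norm_num
    rw [e1, e2]
    set u := |(p.2 : ℝ)| ^ (3 / 2 : ℝ) with hu
    set v := |(p.2 : ℝ)| ^ (1 / 2 : ℝ) with hv
    have hu0 : 0 < u := Real.rpow_pos_of_pos hm _
    have hv0 : 0 < v := Real.rpow_pos_of_pos hm _
    rw [mul_one_div, div_le_div_iff₀ (by positivity) hu0]
    have e5 : 1 ≤ x * x * v := by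
      rw [← e4]; exact mul_le_mul_of_nonneg_left e3 (by positivity)
    nlinarith

lemma TT_summable : Summable fun p : TT => 1 - ‖pt p‖ := by
  refine Summable.of_nonneg_of_le (fun p => ?_) (fun p => bound_cmp p.2)
    ((cmpf_summable.comp_injective Subtype.val_injective).mul_left 4)
  linarith [pt_lt p]

lemma JJ_sub : JJ ⊆ TT := fun p hp => Or.inr (Or.inr hp)

/-- the zeros of `B₁` -/
noncomputable def aJ (p : JJ) : ℂ := pt p

lemma pt_ne_real {p : ℕ × ℤ} (hp : p ∈ JJ) {t : ℝ} (ht : 0 < t) : pt p ≠ cay t := by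
  intro h
  have h1 := cay_injOn (lam_re_pos p) (by simpa using ht) h
  have h2 := congrArg Complex.im h1
  rw [lam_im, Complex.ofReal_im] at h2
  have h3 : (p.2 : ℝ) ≠ 0 := by
    have := hp.2
    intro h4
    have h5 : p.2 = 0 := by exact_mod_cast h4
    rw [h5, abs_zero] at this
    have h3 : (0 : ℤ) < 16 ^ p.1 := by positivity
    omega
  have h4 : (1 / 2 : ℝ) ^ p.1 * (2 * π * p.2) ≠ 0 := by
    have := Real.pi_ne_zero
    positivity
  exact h4 h2

lemma aJ_adm : Adm aJ where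
  ne p h := by
    have := pt_ne_real p.2 one_pos
    apply this
    unfold aJ at h
    rw [h]; simp [cay]
  lt p := pt_lt _
  sum := by
    have := TT_summable.comp_injective (Set.inclusion_injective JJ_sub)
    exact this

lemma aJ_inj : Function.Injective aJ := pt_injective.comp Subtype.val_injective

/-- the Blaschke product `B₁` -/
noncomputable def B1 : ℂ → ℂ := BP aJ

lemma prod_sq_le_exp {κ : Type*} (t : Finset κ) (r : κ → ℝ) :
    (∏ i ∈ t, r i) ^ 2 ≤ Real.exp (-∑ i ∈ t, (1 - r i ^ 2)) := by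
  rw [← Finset.prod_pow, ← Finset.sum_neg_distrib, Real.exp_sum]
  apply Finset.prod_le_prod
  · intro i _; positivity
  · intro i _
    have := Real.add_one_le_exp (-(1 - r i ^ 2))
    linarith

lemma one_sub_rho_sq {w l : ℂ} (hw : 0 < w.re) (hl : 0 < l.re) :
    1 - ‖(w - l) / (w + conj l)‖ ^ 2 = 4 * w.re * l.re / ‖w + conj l‖ ^ 2 := by
  have h0 := add_conj_ne_zero hw hl
  have h0' : ‖w + conj l‖ ^ 2 ≠ 0 := pow_ne_zero _ (norm_ne_zero_iff.mpr h0)
  rw [norm_div, div_pow, eq_div_iff h0', sub_mul, div_mul_cancel₀ _ h0', one_mul, norm_sq_eq,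
    norm_sq_eq]
  simp; ring

lemma B1_small (K : ℕ) (n : ℤ) (hn : (8 : ℤ) ^ K + 1 ≤ |n|) :
    ‖B1 (cay (lamZ n))‖ ^ 2 ≤ Real.exp (-(K / 17 : ℝ)) := by
  classical
  have hre : 0 < (lamZ n).re := by rw [lamZ_re]; norm_num
  set e : (Σ _ : ℕ, ℕ) → ℕ × ℤ := fun q => (q.1, 2 ^ q.1 * n + q.2) with he
  set t0 : Finset (Σ _ : ℕ, ℕ) := (Finset.Icc 1 K).sigma (fun k => Finset.range (2 ^ k)) with ht0
  set t : Finset (ℕ × ℤ) := t0.image e with ht
  have einj : Function.Injective e := by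
    rintro ⟨k, j⟩ ⟨k', j'⟩ h
    simp only [he, Prod.mk.injEq] at h
    obtain ⟨h1, h2⟩ := h
    subst h1
    have : j = j' := by
      have : (j : ℤ) = j' := by linarith
      exact_mod_cast this
    rw [this]
  have htJ : ∀ p ∈ t, p ∈ JJ := by
    intro p hp
    rw [ht, Finset.mem_image] at hp
    obtain ⟨⟨k, j⟩, hq, rfl⟩ := hp
    rw [ht0, Finset.mem_sigma, Finset.mem_Icc, Finset.mem_range] at hq
    obtain ⟨⟨hk1, hk2⟩, hj⟩ := hq
    simp only at hk1 hk2 hj
    refine ⟨hk1, ?_⟩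
    simp only [he]
    have h1 : |(2 : ℤ) ^ k * n| - |(j : ℤ)| ≤ |2 ^ k * n + j| := by
      have := abs_sub_abs_le_abs_sub ((2 : ℤ) ^ k * n) (-(j:ℤ))
      rwa [abs_neg, sub_neg_eq_add] at this
    have h2 : |(2 : ℤ) ^ k * n| = 2 ^ k * |n| := by
      rw [abs_mul, abs_of_pos (by positivity)]
    have h3 : |(j : ℤ)| < 2 ^ k := by
      rw [abs_of_nonneg (by positivity)]; exact_mod_cast hj
    have h4 : (8 : ℤ) ^ k ≤ 8 ^ K := pow_le_pow_right₀ (by norm_num) hk2
    have h5 : (16 : ℤ) ^ k = 2 ^ k * 8 ^ k := by rw [← mul_pow]; norm_num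
    have h6 : (0 : ℤ) < 2 ^ k := by positivity
    rw [h2] at h1
    rw [h5]
    nlinarith
  have h1 := aJ_adm.norm_le_prod (cay_norm_lt hre) (t.subtype (· ∈ JJ))
  have h2 : ∏ j ∈ t.subtype (· ∈ JJ), ‖(aJ j - cay (lamZ n)) / (1 - conj (aJ j) * cay (lamZ n))‖ =
      ∏ p ∈ t, ‖(lamZ n - lam p) / (lamZ n + conj (lam p))‖ := by
    have h3 := Finset.prod_subtype_of_mem (s := t) (p := (· ∈ JJ))
      (fun p => ‖(pt p - cay (lamZ n)) / (1 - conj (pt p) * cay (lamZ n))‖) htJ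
    have h4 : ∏ j ∈ t.subtype (· ∈ JJ),
        ‖(aJ j - cay (lamZ n)) / (1 - conj (aJ j) * cay (lamZ n))‖ =
        ∏ p ∈ t, ‖(pt p - cay (lamZ n)) / (1 - conj (pt p) * cay (lamZ n))‖ := h3
    rw [h4]
    apply Finset.prod_congr rfl
    intro p _
    exact norm_mobius_cay hre (lam_re_pos p)
  rw [h2] at h1
  have h3 : ‖B1 (cay (lamZ n))‖ ^ 2 ≤
      (∏ p ∈ t, ‖(lamZ n - lam p) / (lamZ n + conj (lam p))‖) ^ 2 := by
    apply pow_le_pow_left₀ (norm_nonneg _) h1
  refine h3.trans ((prod_sq_le_exp _ _).trans ?_)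
  rw [Real.exp_le_exp, neg_le_neg_iff]
  -- the sum
  rw [ht, Finset.sum_image einj.injOn, ht0, Finset.sum_sigma]
  have h4 : ∀ k ∈ Finset.Icc 1 K, (1 / 17 : ℝ) ≤ ∑ j ∈ Finset.range (2 ^ k),
      (1 - ‖(lamZ n - lam (e ⟨k, j⟩)) / (lamZ n + conj (lam (e ⟨k, j⟩)))‖ ^ 2) := by
    intro k _
    have h5 : ∀ j ∈ Finset.range (2 ^ k), (1 / 2 : ℝ) ^ k / 17 ≤
        1 - ‖(lamZ n - lam (e ⟨k, j⟩)) / (lamZ n + conj (lam (e ⟨k, j⟩)))‖ ^ 2 := by
      intro j hj
      rw [one_sub_rho_sq hre (lam_re_pos _), lamZ_re, lam_re]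
      simp only [he]
      have hden : ‖lamZ n + conj (lam (k, 2 ^ k * n + j))‖ ^ 2 ≤ 68 := by
        rw [norm_sq_eq]
        simp only [Complex.add_re, Complex.add_im, Complex.conj_re, Complex.conj_im]
        rw [lamZ_re, lam_re, lamZ_im, lam_im]
        simp only
        push_cast
        set x := (1 / 2 : ℝ) ^ k with hx
        have hx0 : 0 < x := by positivity
        have hx1 : x ≤ 1 := pow_le_one₀ (by norm_num) (by norm_num)
        have hx2 : x * 2 ^ k = 1 := by rw [hx, ← mul_pow]; norm_num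
        have e1 : 2 * π * (n:ℝ) + -(x * (2 * π * (2 ^ k * n + j))) = -(2 * π * (x * j)) := by
          linear_combination (-(2 * π * (n : ℝ))) * hx2
        rw [e1]
        have hj' : (j : ℝ) ≤ 2 ^ k := by
          have := (Finset.mem_range.mp hj).le
          exact_mod_cast this
        have hxj : x * j ≤ 1 := by rw [← hx2]; exact mul_le_mul_of_nonneg_left hj' hx0.le
        have hxj0 : 0 ≤ x * j := by positivity
        have hpi : π ≤ 4 := Real.pi_le_four
        have hpi0 : 0 < π := Real.pi_pos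
        have h8 : 2 * π * (x * j) ≤ 8 := by nlinarith
        have h80 : 0 ≤ 2 * π * (x * j) := by positivity
        nlinarith
      have hden0 : 0 < ‖lamZ n + conj (lam (k, 2 ^ k * n + j))‖ ^ 2 := by
        have := add_conj_ne_zero hre (lam_re_pos (k, 2 ^ k * n + j))
        positivity
      rw [div_le_div_iff₀ (by norm_num) hden0]
      have hx0 : 0 < (1 / 2 : ℝ) ^ k := by positivity
      nlinarith
    calc (1 / 17 : ℝ) = ∑ j ∈ Finset.range (2 ^ k), (1 / 2 : ℝ) ^ k / 17 := by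
          rw [Finset.sum_const, Finset.card_range, nsmul_eq_mul]
          push_cast
          have : (2 : ℝ) ^ k * (1 / 2) ^ k = 1 := by rw [← mul_pow]; norm_num
          linear_combination (-(1 / 17 : ℝ)) * this
      _ ≤ _ := Finset.sum_le_sum h5
  calc (K / 17 : ℝ) = ∑ k ∈ Finset.Icc 1 K, (1 / 17 : ℝ) := by
        rw [Finset.sum_const, Nat.card_Icc, nsmul_eq_mul]; push_cast; simp; ring
    _ ≤ _ := Finset.sum_le_sum h4

end Pool.Agent.MP_e1108f_an
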