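import Mathlib
import Pool.Agent.MP_e1108f_an.Config

/-!
The function `B₁ S` is not a constant multiple of a Blaschke product.
-/

namespace Pool.Agent.MP_e1108f_an

open Metric Filter Topology
open scoped ComplexConjugate Real

/-- the extremal function -/
noncomputable def gg (z : ℂ) : ℂ := B1 z * SS z

lemma gg_diff : DifferentiableOn ℂ gg (ball 0 1) := aJ_adm.differentiableOn.mul SS_diff

lemma gg_norm {z : ℂ} (hz : ‖z‖ < 1) : ‖gg z‖ ≤ 1 := by
  unfold gg
  rw [norm_mul]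
  exact mul_le_one₀ (aJ_adm.norm_le_one hz) (norm_nonneg _) (SS_norm_le hz)

lemma cay_real_lt {t : ℝ} (ht : 0 < t) : ‖cay t‖ < 1 := cay_norm_lt (by simpa using ht)

lemma B1_real_ne {t : ℝ} (ht : 0 < t) : B1 (cay t) ≠ 0 :=
  aJ_adm.ne_zero (cay_real_lt ht) fun j h => pt_ne_real j.2 ht h.symm

lemma SS_real {t : ℝ} (ht : 0 < t) : ‖SS (cay t)‖ = Real.exp (-t) := by
  unfold SS
  rw [cayInv_cay (by simpa using ht), Complex.norm_exp]
  simp

/-- quotient bound -/
lemma quotient_bound {ι : Type*} {a : ι → ℂ} (ha : Adm a) (k : ℕ) (s : Finset ι) {F q : ℂ → ℂ}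
    (hq : DifferentiableOn ℂ q (ball 0 1)) (hF : ∀ z ∈ ball (0 : ℂ) 1, ‖F z‖ ≤ 1)
    (hfac : ∀ z ∈ ball (0 : ℂ) 1, ‖F z‖ =
      (‖z‖ ^ k * ∏ j ∈ s, ‖(a j - z) / (1 - conj (a j) * z)‖) * ‖q z‖) :
    ∀ z ∈ ball (0 : ℂ) 1, ‖q z‖ ≤ 1 := by
  apply norm_le_one_of_boundary hq
  intro ε hε
  set L : ℝ → ℝ := fun r => r ^ k * ∏ j ∈ s, (r - ‖a j‖) / (1 - ‖a j‖ * r) with hL
  have hL1 : L 1 = 1 := by
    simp only [hL]
    rw [one_pow, one_mul]
    apply Finset.prod_eq_one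
    intro j _
    rw [mul_one]
    exact div_self (by have := ha.lt j; linarith)
  have hLt : Tendsto L (𝓝 1) (𝓝 (L 1)) := by
    apply Tendsto.mul (tendsto_id.pow k)
    apply tendsto_finsetProd
    intro j _
    apply Tendsto.div (tendsto_id.sub tendsto_const_nhds)
      (tendsto_const_nhds.sub (tendsto_id.const_mul _))
    have := ha.lt j
    simp only [mul_one]; linarith
  rw [hL1] at hLt
  have hev1 : ∀ᶠ r : ℝ in 𝓝 1, 1 / (1 + ε) < L r :=
    hLt.eventually_const_lt (by rw [div_lt_one (by linarith)]; linarith)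
  have hev2 : ∀ᶠ r : ℝ in 𝓝 1, ∀ j ∈ s, ‖a j‖ < r := by
    rw [Filter.eventually_all_finset]
    intro j _
    exact lt_mem_nhds (ha.lt j)
  have hev3 : ∀ᶠ r : ℝ in 𝓝 1, 0 < r := lt_mem_nhds one_pos
  obtain ⟨δ, hδ, hev⟩ := Metric.eventually_nhds_iff.mp (hev1.and (hev2.and hev3))
  refine ⟨1 - δ, by linarith, ?_⟩
  intro r hr hr1 z hz
  obtain ⟨h1, h2, h3⟩ := hev (y := r) (by rw [Real.dist_eq, abs_lt]; constructor <;> linarith)
  have hzb : z ∈ ball (0:ℂ) 1 := by simpa [hz] using hr1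
  have hlow : L r ≤ ‖z‖ ^ k * ∏ j ∈ s, ‖(a j - z) / (1 - conj (a j) * z)‖ := by
    simp only [hL]
    rw [hz]
    apply mul_le_mul_of_nonneg_left _ (by positivity)
    apply Finset.prod_le_prod
    · intro j hj
      have := h2 j hj
      have := norm_nonneg (a j)
      have := ha.lt j
      apply div_nonneg (by linarith); nlinarith
    · intro j hj
      exact norm_mobius_lower (h2 j hj) hr1 hz
  have hpos : 0 < 1 / (1 + ε) := by positivity
  have h4 := hF z hzb
  rw [hfac z hzb] at h4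
  set P := ‖z‖ ^ k * ∏ j ∈ s, ‖(a j - z) / (1 - conj (a j) * z)‖ with hP
  have hP1 : 1 / (1 + ε) < P := lt_of_lt_of_le h1 hlow
  have hP0 : 0 < P := hpos.trans hP1
  have h5 : ‖q z‖ ≤ 1 / P := by rw [le_div_iff₀ hP0]; linarith
  refine h5.trans ?_
  rw [div_le_iff₀ hP0]
  rw [div_lt_iff₀ (by linarith)] at hP1
  linarith

lemma not_blaschke :
    ¬ ∃ (c : ℂ) (B : ℂ → ℂ), IsBlaschkeProduct B ∧
      Set.EqOn gg (fun w => c * B w) (ball 0 1) := by
  classical
  rintro ⟨c, B, ⟨c0, k, ι, _, a, hc0, ha, hsum, hB⟩, hEq⟩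
  have hadm : Adm a := ⟨fun j => (ha j).1, fun j => (ha j).2, hsum⟩
  -- the key estimate
  have key : ∀ s : Finset ι, ∀ z ∈ ball (0 : ℂ) 1,
      ‖B1 z‖ ≤ ‖z‖ ^ k * ∏ j ∈ s, ‖blaschkeFactor (a j) z‖ := by
    intro s z hz
    set rest : {j // j ∉ s} → ℂ := fun j => a j with hrest
    have hradm : Adm rest := hadm.comp (e := fun j : {j // j ∉ s} => (j : ι))
      Subtype.val_injective
    set q : ℂ → ℂ := fun w => c * c0 * BP rest w / SS w with hq
    have hqd : DifferentiableOn ℂ q (ball 0 1) := by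
      apply DifferentiableOn.div (hradm.differentiableOn.const_mul _) SS_diff
      intro w _; exact SS_ne_zero w
    have hfac0 : ∀ w ∈ ball (0 : ℂ) 1, B1 w = (w ^ k * ∏ j ∈ s, blaschkeFactor (a j) w) * q w := by
      intro w hw
      have hw1 : ‖w‖ < 1 := by simpa using hw
      have h1 : B1 w * SS w = c * B w := hEq hw
      have h2 : (∏' j, blaschkeFactor (a j) w) =
          (∏ j ∈ s, blaschkeFactor (a j) w) * BP rest w := hadm.split hw1 s
      rw [hB w hw, h2] at h1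
      have hS := SS_ne_zero w
      simp only [hq]
      rw [mul_div_assoc', eq_div_iff hS, h1]
      ring
    have hfac : ∀ w ∈ ball (0 : ℂ) 1, ‖B1 w‖ =
        (‖w‖ ^ k * ∏ j ∈ s, ‖(a j - w) / (1 - conj (a j) * w)‖) * ‖q w‖ := by
      intro w hw
      rw [hfac0 w hw, norm_mul, norm_mul, norm_pow, norm_prod]
      congr 2
      exact Finset.prod_congr rfl fun j _ => norm_blaschkeFactor (hadm.ne j)
    have hb := quotient_bound hadm k s hqd
      (fun w hw => aJ_adm.norm_le_one (by simpa using hw)) hfac z hz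
    have h3 := hfac0 z hz
    rw [h3, norm_mul, norm_mul, norm_pow, norm_prod]
    apply mul_le_of_le_one_right _ hb
    exact mul_nonneg (by positivity) (Finset.prod_nonneg fun i _ => norm_nonneg _)
  have key2 : ∀ z ∈ ball (0 : ℂ) 1, ‖B1 z‖ ≤ ‖z‖ ^ k * ‖BP a z‖ := by
    intro z hz
    have hz1 : ‖z‖ < 1 := by simpa using hz
    have ht : Tendsto (fun t : Finset ι => ∏ j ∈ t, ‖blaschkeFactor (a j) z‖) atTop
        (𝓝 ‖BP a z‖) := by simpa [HasProd] using (hadm.hasProd hz1).norm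
    exact ge_of_tendsto (ht.const_mul _) (Eventually.of_forall fun t => key t z hz)
  have key3 : ∀ t : ℝ, 0 < t → ‖c‖ ≤ Real.exp (-t) := by
    intro t ht
    have hz1 := cay_real_lt ht
    have hz : cay t ∈ ball (0:ℂ) 1 := by simpa using hz1
    have h1 : gg (cay t) = c * B (cay t) := hEq hz
    have h2 := congrArg norm h1
    unfold gg at h2
    rw [norm_mul, norm_mul, hB _ hz, norm_mul, norm_mul, hc0, one_mul, norm_pow, SS_real ht] at h2
    have h3 := key2 _ hz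
    have h4 : 0 < ‖B1 (cay t)‖ := norm_pos_iff.mpr (B1_real_ne ht)
    have h5 : ‖c‖ * ‖B1 (cay t)‖ ≤ Real.exp (-t) * ‖B1 (cay t)‖ := by
      calc ‖c‖ * ‖B1 (cay t)‖ ≤ ‖c‖ * (‖cay t‖ ^ k * ‖BP a (cay t)‖) :=
            mul_le_mul_of_nonneg_left h3 (norm_nonneg _)
        _ = ‖B1 (cay t)‖ * Real.exp (-t) := h2.symm
        _ = _ := mul_comm _ _
    exact le_of_mul_le_mul_right h5 h4
  have hc : c = 0 := by
    have ht : Tendsto (fun t : ℝ => Real.exp (-t)) atTop (𝓝 0) :=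
      Real.tendsto_exp_neg_atTop_nhds_zero
    have h1 : ‖c‖ ≤ 0 := by
      refine ge_of_tendsto ht ?_
      filter_upwards [eventually_gt_atTop 0] with t ht
      exact key3 t ht
    simpa using h1
  have hz1 := cay_real_lt one_pos
  have hz : cay (1:ℝ) ∈ ball (0:ℂ) 1 := by simpa using hz1
  have h1 : gg (cay (1:ℝ)) = c * B (cay (1:ℝ)) := hEq hz
  rw [hc, zero_mul] at h1
  exact mul_ne_zero (B1_real_ne one_pos) (SS_ne_zero _) h1

end Pool.Agent.MP_e1108f_an
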